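import Pool.Agent.W518.DN.Density

/-!
# Tate classes on almost all abelian varieties in every Newton stratum

Fix a prime `p`, a nonempty finite set `κ`, dimensions `g i ≥ 1` and, for each `i`, a symmetric
Newton polygon with slopes `s i j` and `1 - s i j` (`j < g i`), where `0 ≤ s i j ≤ 1 / 2`, whose
break points are integral and which is not the supersingular one (`IsNewton (s i)`, `s i j < 1 / 2`
for some `j`).  By the theorem of Honda and Tate `Stratum g s p a` is the set of families of
isogeny classes of abelian varieties `A_i` of dimension `g i` over the field with `p ^ a` elements
having these Newton polygons (it consists of the characteristic polynomials of Frobenius).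

We prove that, as `a → ∞`, the number of elements of `Stratum g s p a` tends to infinity, and that
the proportion of those families for which the following holds tends to one:

for all exponents `n i`, all supersingular abelian varieties `B` over the field with `p ^ a`
elements and all primes `ℓ ≠ p`, every Tate class, of any degree and over any finite extension, on
`B × ∏ A_i ^ (n i)` is in the algebra generated by Tate classes of degree one, that is (by Tate's
theorem) by divisor classes.

So the answer to Q1 is positive for all these abelian varieties.
-/

open Pool.Agent.W518.DN

namespace Pool.Agent.Results.MP_ee618e_ag.NewtonStrata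

theorem result {κ : Type} [Fintype κ] [Nonempty κ] (p : ℕ) [Fact p.Prime]
    -- dimensions and Newton polygons
    (g : κ → ℕ) (hg : ∀ i, 1 ≤ g i) (s : ∀ i, Fin (g i) → ℚ) (hs : ∀ i, IsNewton (s i))
    (hss : ∀ i, ∃ j, s i j < 1 / 2)
    -- a number of isogeny classes, a proportion of exceptions
    (N : ℕ) (ε : ℝ) (hε : 0 < ε) :
    ∃ a₀ : ℕ, ∀ a, a₀ ≤ a →
      (Stratum g s p a).Finite ∧ N ≤ (Stratum g s p a).ncard ∧
      ({P ∈ Stratum g s p a | ¬ TateGenerated p a P}.ncard : ℝ) ≤
        ε * ((Stratum g s p a).ncard : ℝ) := by
  classical
  exact density g s p hg hs hss N ε hε

end Pool.Agent.Results.MP_ee618e_ag.NewtonStrata
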