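import Pool.Agent.W547.UB.Tate

/-!
# Tate classes on ordinary abelian varieties over finite fields in independent blocks

Let `A₀` be an ordinary abelian variety over the field with `q = p ^ a` elements, isogenous (after a
finite extension of the base field) to a product of any number of absolutely simple abelian varieties
`A₀ i` with complex multiplication by CM fields `E i` containing their Frobenius endomorphisms `π i`.
Its canonical lift is isogenous to the product `X` of the abelian varieties `A i` with complex
multiplication by `E i` and the CM types `Φ i` given by the embeddings `φ` for which `φ (π i)` has
slope one. 
The factors are divided into blocks (the block of the factor `A i` is `b i`), such that for each block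
there is an automorphism of the field of complex numbers that acts as the complex conjugation on all
embeddings of the CM fields in this block and trivially on all embeddings of the CM fields in the
other blocks (the intersection of the Galois closure of the fields of the block with the compositum of
the Galois closures of the other fields is totally real; for one block this is no condition). Each
block is of one of the following kinds:

* its factors have dimension at most three, and any two of them whose CM fields have the same Galois
  closure over `ℚ` have isomorphic CM types, unless these CM fields are Galois over `ℚ`;
* its factors are factors (up to isogeny) of one abelian variety of CM type of dimension at most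
  five, each with any multiplicity;
* its factors have the same CM type, with a CM field of degree at most fourteen;
* its factors are factors (up to isogeny) of one nondegenerate abelian variety of CM type, of
  arbitrary dimension, each with any multiplicity.

For example `X` may be any power of any abelian variety of CM type of dimension at most five, or any
power of a simple abelian variety of CM type of dimension at most seven, or a product of such powers
for which the Galois closures of the CM fields are linearly disjoint. The conditions hold for all
powers of `X` if they hold for `X`.

Then, for every finite extension of the base field and every degree, the Tate classes on `A₀` are
linear combinations, with coefficients in `ℚ_ℓ`, of the reductions of classes in the ring generated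
by the classes of divisors on `X` and by the pull-backs, along homomorphisms `X → Y`, of the Weil
classes of imaginary quadratic fields on abelian fourfolds and sixfolds `Y` of CM type and of split
Weil type.

The Weil classes on abelian fourfolds of Weil type and on abelian sixfolds of split Weil type are
algebraic by theorems of Markman, and the reduction of an algebraic class is algebraic. So with these
theorems the Tate conjecture holds for all these ordinary abelian varieties and all their powers, over
all finite extensions of the base field.
-/

namespace Pool.Agent.Results.MP_ee618e_ag.OrdinaryIndependentBlocks

open Pool.Agent.W547.KB Pool.Agent.W547.LD Pool.Agent.W530.NF Pool.Agent.W547.LN
open Pool.Agent.W547.UB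

/-- `X` is the canonical lift of an ordinary abelian variety `A₀` over the field with `q = p ^ a`
elements, in independent blocks, `V` is the rational Tate module of `A₀` and `F` the Frobenius
endomorphism: the Tate classes `f` of degree `2 m` over the extension of degree `s` are generated. -/
theorem result (p : ℕ) [Fact p.Prime] (a : ℕ) (ha : 0 < a) (ν : PadicAlgCl p ≃+* ℂ)
    (X : CMAV) {J : Type} (b : X.I → J) (hX : IndependentBlocks X b)
    (π : X.H1) (hπ : IsCanonicalLift p a ν X π)
    {K V : Type} [Field K] [CharZero K] [AddCommGroup V] [Module K V]
    (C : Comparison X K V) (F : V →ₗ[K] V) (hF : IsFrobeniusMap C π F)
    {m s : ℕ} (hs : 0 < s) (f : V [⋀^Fin (2 * m)]→ₗ[K] K) (hf : IsTateClassOver F (p ^ a) s f) :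
    IsGenerated C f :=
  Pool.Agent.W547.UB.tate_finiteField X b hX p a ha ν π hπ C F hF hs f hf

end Pool.Agent.Results.MP_ee618e_ag.OrdinaryIndependentBlocks
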